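import Pool.Agent.H84.UG.Ext
import Pool.Agent.H47.UG.Det
import Pool.Agent.H47.UG.Stab
import Pool.Agent.H1.UG.LocGGF
import Pool.Agent.H45.UG.LocGP
import Pool.Agent.H38.UG.Patch
import Pool.Agent.H25.UG.SigF
import Pool.Agent.H94.UG.Ipd

/-!
# YB-INTER: `GP(e) ∩ GG(e-1) ≤ GP(e-1)`
-/

set_option autoImplicit false

open MvPolynomial

namespace Pool.Agent.H47.UG

namespace FF

variable {K : Type} [Field K] [CharZero K] {n d : ℕ} {F : HP K n} (T : FF d F) (hF : Nice d F)

include hF

/-- YB-INTER -/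
theorem inter_GP (hd : 2 ≤ d) (k p : ℕ) (e : ℤ) (m q : ℕ) (i : Fin (n + 2)) (v : T.BB)
    (h1 : v ∈ T.GP k p e m q i) (h2 : v ∈ T.GG k (e - 1) m q i) : v ∈ T.GP k p (e - 1) m q i := by
  classical
  have locGP : ∀ (e : ℤ) (j : Fin (n + 1)) (v : T.BB),
      (∃ N : ℕ, C (T.u i (i.succAbove j)) ^ N * v ∈ T.GP k p e m q i) ↔
      ∃ (r : ℕ) (a : Fin r → T.L) (g : Fin r → MvPolynomial (ℕ × Fin n) K), (∀ t, g t ∈ IP K n k p m q) ∧
        (∀ t, a t ∈ T.locA e i (i.succAbove j)) ∧
        v = T.σ i j (∑ t, C (a t) * map (algebraMap K T.L) (g t)) := fun e j v =>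
    Pool.Agent.H45.UG.loc_GP_of T (fun k e m q i j v => T.loc_GG hF hd k e m q i j v)
      (fun k i j c => T.det_y hF hd i j c) (fun j => T.fd_ne hF hd j) (fun i j => T.u_mem hF i j) k p e m q i j v
  refine T.patch_of i (fun j => T.u_mem hF i j) (T.smoothA hF hd i) _
    (fun a ha v hv => T.stable_GP hF k p (e - 1) m q i a ha v hv) v fun j' hj' => ?_
  obtain ⟨j, rfl⟩ := Fin.exists_succAbove_eq hj'
  have h3 : ∃ N : ℕ, C (T.u i (i.succAbove j)) ^ N * v ∈ T.GP k p (e - 1) m q i := by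
    rw [locGP]
    obtain ⟨r, a, g, hg, ha, hv⟩ := (locGP e j v).1 ⟨0, by simpa using h1⟩
    obtain ⟨w, hw, hw2⟩ := (T.loc_GG hF hd k (e - 1) m q i j v).1 ⟨0, by simpa using h2⟩
    have h4 : w = ∑ t, C (a t) * map (algebraMap K T.L) (g t) :=
      (T.σ_bij hF hd i j).1 (hw.symm.trans hv)
    have := (finrank_IP_le (K := K) n k m p q).1
    obtain ⟨M, lam, g', hg', hlam⟩ := h84_coords (IP K n k p m q)
    refine ⟨M, fun t => extL (lam t) w, g', hg', fun t => ?_, ?_⟩
    · change extL (lam t) w ∈ h84_locA T (e - 1) i (i.succAbove j) (T.u_mem hF _ _)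
      rw [h84_extL_eq]
      refine Submodule.sum_mem (h84_locA T (e - 1) i (i.succAbove j) (T.u_mem hF _ _)) fun b hb => ?_
      refine Submodule.smul_mem _ _ ?_
      exact (hw2 b (mem_support_iff.1 hb)).2.2.2
    · rw [hw]
      refine congrArg _ ?_
      have h5 : ∀ t', map (algebraMap K T.L) (g t') = ∑ t, C (algebraMap K T.L (lam t (g t'))) *
          map (algebraMap K T.L) (g' t) := by
        intro t'
        conv_lhs => rw [hlam (g t') (hg t')]
        rw [map_sum]
        refine Finset.sum_congr rfl fun t _ => ?_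
        rw [smul_eq_C_mul, map_mul, map_C]
      have h6 : ∀ t, extL (lam t) w = ∑ t', a t' * algebraMap K T.L (lam t (g t')) := by
        intro t
        rw [h4, map_sum]
        exact Finset.sum_congr rfl fun t' _ => h84_extL_C_mul_map _ _ _
      calc w = ∑ t', C (a t') * map (algebraMap K T.L) (g t') := h4
        _ = ∑ t', ∑ t, C (a t') * (C (algebraMap K T.L (lam t (g t'))) * map (algebraMap K T.L) (g' t)) := by
          refine Finset.sum_congr rfl fun t' _ => ?_
          rw [h5 t', Finset.mul_sum]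
        _ = ∑ t, ∑ t', C (a t') * (C (algebraMap K T.L (lam t (g t'))) * map (algebraMap K T.L) (g' t)) :=
          Finset.sum_comm
        _ = ∑ t, C (extL (lam t) w) * map (algebraMap K T.L) (g' t) := by
          refine Finset.sum_congr rfl fun t _ => ?_
          rw [h6 t, map_sum, Finset.sum_mul]
          refine Finset.sum_congr rfl fun t' _ => ?_
          rw [map_mul, mul_assoc]
  obtain ⟨N, hN⟩ := h3
  refine ⟨N, ?_⟩
  rwa [smul_eq_C_mul, map_pow]

end FF

end Pool.Agent.H47.UG
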