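import Pool.Agent.H73.UG.YbDefs

/-!
# Coordinates on spaces of polynomials, the extension `extL`, the subspace `locA`
-/

set_option autoImplicit false

open MvPolynomial

namespace Pool.Agent.H47.UG

/-- A finite dimensional space of polynomials has coordinates which extend to all polynomials. -/
theorem h84_coords {K σ : Type} [Field K] (I : Submodule K (MvPolynomial σ K)) [FiniteDimensional K I] :
    ∃ (M : ℕ) (lam : Fin M → (MvPolynomial σ K →ₗ[K] K)) (g : Fin M → MvPolynomial σ K),
      (∀ t, g t ∈ I) ∧ ∀ v ∈ I, v = ∑ t, lam t v • g t := by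
  classical
  let b := Module.finBasis K I
  have h : ∀ t, ∃ l : MvPolynomial σ K →ₗ[K] K, l.comp I.subtype = b.coord t := fun t =>
    LinearMap.exists_extend (b.coord t)
  choose lam hlam using h
  refine ⟨_, lam, fun t => (b t : MvPolynomial σ K), fun t => (b t).2, fun v hv => ?_⟩
  have h1 := b.sum_repr ⟨v, hv⟩
  have h2 := congrArg (fun x : I => (x : MvPolynomial σ K)) h1
  simp only [AddSubmonoidClass.coe_finsetSum, Submodule.coe_smul] at h2
  rw [← h2]
  refine Finset.sum_congr rfl fun t _ => ?_
  congr 1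
  have h3 := congrArg (fun f => f ⟨v, hv⟩) (hlam t)
  simp only [LinearMap.comp_apply, Submodule.subtype_apply, Module.Basis.coord_apply] at h3
  rw [← h3, h2]

/-- `extL` of an elementary element. -/
theorem h84_extL_C_mul_map {K L σ : Type} [Field K] [Field L] [Algebra K L] (lam : MvPolynomial σ K →ₗ[K] K)
    (a : L) (g : MvPolynomial σ K) :
    extL (L := L) lam (C a * map (algebraMap K L) g) = a * algebraMap K L (lam g) := by
  classical
  rw [← smul_eq_C_mul, map_smul, smul_eq_mul]
  congr 1
  induction g using MvPolynomial.induction_on' with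
  | monomial b c =>
    rw [map_monomial]
    have h1 : (monomial b (algebraMap K L c) : MvPolynomial σ L) = algebraMap K L c • basisMonomials σ L b := by
      rw [coe_basisMonomials, smul_monomial, smul_eq_mul, mul_one]
    have h2 : (monomial b c : MvPolynomial σ K) = c • monomial b 1 := by
      rw [smul_monomial, smul_eq_mul, mul_one]
    rw [h1, map_smul]
    unfold extL
    rw [Module.Basis.constr_basis, h2, map_smul, smul_eq_mul, smul_eq_mul, map_mul]
  | add p q hp hq => rw [map_add, map_add, hp, hq, map_add, map_add]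

/-- `extL` in terms of the coefficients. -/
theorem h84_extL_eq {K L σ : Type} [Field K] [Field L] [Algebra K L] (lam : MvPolynomial σ K →ₗ[K] K)
    (w : MvPolynomial σ L) :
    extL lam w = ∑ b ∈ w.support, lam (monomial b 1) • coeff b w := by
  classical
  conv_lhs => rw [w.as_sum]
  rw [map_sum]
  refine Finset.sum_congr rfl fun b _ => ?_
  have h1 : (monomial b (coeff b w) : MvPolynomial σ L) = C (coeff b w) * map (algebraMap K L) (monomial b 1) := by
    rw [map_monomial, map_one, C_mul_monomial, mul_one]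
  rw [h1, h84_extL_C_mul_map, Algebra.smul_def, mul_comm]

namespace FF

section

variable {K : Type} [Field K] {n d : ℕ} {F : HP K n} (T : FF d F)

theorem h84_OO_smul (e : ℤ) (i : Fin (n + 2)) {a : T.L} (ha : a ∈ T.A i) {v : T.L} (hv : v ∈ T.OO e i) :
    a * v ∈ T.OO e i := by
  unfold OO at hv ⊢
  refine Submodule.span_induction (p := fun v _ => a * v ∈ Submodule.span K {v | ∃ a ∈ T.A i, v = T.x i ^ e * a})
    ?_ ?_ ?_ ?_ hv
  · rintro v ⟨b, hb, rfl⟩
    exact Submodule.subset_span ⟨a * b, (T.A i).mul_mem ha hb, by ring⟩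
  · rw [mul_zero]; exact Submodule.zero_mem _
  · intro v w _ _ h1 h2
    rw [mul_add]; exact Submodule.add_mem _ h1 h2
  · intro c v _ h1
    rw [mul_smul_comm]; exact Submodule.smul_mem _ _ h1

/-- `locA e i j` as a `K`-subspace. -/
def h84_locA (e : ℤ) (i j : Fin (n + 2)) (hu : T.u i j ∈ T.A i) : Submodule K T.L where
  carrier := T.locA e i j
  add_mem' := by
    rintro a b ⟨N, hN⟩ ⟨M, hM⟩
    refine ⟨N + M, ?_⟩
    have h1 : T.u i j ^ (N + M) * (a + b) = T.u i j ^ M * (T.u i j ^ N * a) + T.u i j ^ N * (T.u i j ^ M * b) := by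
      ring
    rw [h1]
    exact Submodule.add_mem _ (h84_OO_smul T e i ((T.A i).pow_mem hu M) hN)
      (h84_OO_smul T e i ((T.A i).pow_mem hu N) hM)
  zero_mem' := ⟨0, by rw [mul_zero]; exact Submodule.zero_mem _⟩
  smul_mem' := by
    rintro c a ⟨N, hN⟩
    exact ⟨N, by rw [mul_smul_comm]; exact Submodule.smul_mem _ _ hN⟩

end

end FF

end Pool.Agent.H47.UG
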